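import Mathlib

/-!
# Graphs with large triangle degree: definitions
-/

namespace Pool.Agent.Helper39.Tri

/-- The triangle degree of `v` in `G`: the number of triangles (3-cliques) of `G` containing `v`. -/
noncomputable def triDeg {V : Type*} (G : SimpleGraph V) (v : V) : ℕ :=
  {s : Finset V | G.IsNClique 3 s ∧ v ∈ s}.ncard

/-- `InG t G`: every vertex of `G` has triangle degree at least `t.choose 2`. -/
def InG {V : Type*} (t : ℕ) (G : SimpleGraph V) : Prop :=
  ∀ v, t.choose 2 ≤ triDeg G v

/-- `G` is extremal: it lies in `𝒢(n, t)` and has the minimum number of edges in that class. -/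
def Extremal (n t : ℕ) (G : SimpleGraph (Fin n)) : Prop :=
  InG t G ∧ ∀ H : SimpleGraph (Fin n), InG t H → G.edgeSet.ncard ≤ H.edgeSet.ncard

/-- Some connected component of `G` is a complete graph on `t + 1` vertices. -/
def HasIsolatedClique {V : Type*} (t : ℕ) (G : SimpleGraph V) : Prop :=
  ∃ c : G.ConnectedComponent, c.supp.ncard = t + 1 ∧ G.IsClique c.supp

end Pool.Agent.Helper39.Tri
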