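import Mathlib
import Pool.Agent.Helper39.Tri.Defs

/-!
# Counting ordered adjacent pairs
-/

namespace Pool.Agent.Helper39.Tri

open Finset

variable {V : Type*} [Fintype V]

open Classical in
/-- Neighbourhood. -/
noncomputable def N (G : SimpleGraph V) (v : V) : Finset V := univ.filter fun w => G.Adj v w

open Classical in
/-- Closed neighbourhood. -/
noncomputable def U (G : SimpleGraph V) (v : V) : Finset V := insert v (N G v)

open Classical in
/-- Ordered adjacent pairs from `S` to `T`. -/
noncomputable def cr (G : SimpleGraph V) (S T : Finset V) : ℕ := ∑ z ∈ S, (N G z ∩ T).card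

/-- Ordered adjacent pairs inside `S`. -/
noncomputable def E2 (G : SimpleGraph V) (S : Finset V) : ℕ := cr G S S

variable (G : SimpleGraph V)

@[simp] lemma mem_N {v w : V} : w ∈ N G v ↔ G.Adj v w := by simp [N]

@[simp] lemma mem_U {v w : V} : w ∈ U G v ↔ w = v ∨ G.Adj v w := by simp [U]

lemma cr_eq (S T : Finset V) [DecidableRel G.Adj] :
    cr G S T = ∑ z ∈ S, ∑ w ∈ T, if G.Adj z w then 1 else 0 := by
  classical
  unfold cr
  refine sum_congr rfl fun z _ => ?_
  rw [card_eq_sum_ones, ← sum_filter]
  refine sum_congr ?_ fun _ _ => rfl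
  ext w
  simp [and_comm]

lemma cr_comm (S T : Finset V) : cr G S T = cr G T S := by
  classical
  rw [cr_eq, cr_eq, sum_comm]
  refine sum_congr rfl fun z _ => sum_congr rfl fun w _ => ?_
  simp [G.adj_comm]

lemma cr_union_left [DecidableEq V] {S S' : Finset V} (h : Disjoint S S') (T : Finset V) :
    cr G (S ∪ S') T = cr G S T + cr G S' T := by
  unfold cr
  rw [sum_union h]

lemma cr_union_right [DecidableEq V] {S S' : Finset V} (h : Disjoint S S') (T : Finset V) :
    cr G T (S ∪ S') = cr G T S + cr G T S' := by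
  rw [cr_comm, cr_union_left G h, cr_comm G S, cr_comm G S']

lemma cr_mono_right {S S' : Finset V} (h : S ⊆ S') (T : Finset V) :
    cr G T S ≤ cr G T S' := by
  classical
  unfold cr
  refine sum_le_sum fun z _ => card_le_card ?_
  intro w
  simp only [mem_inter]
  exact fun hw => ⟨hw.1, h hw.2⟩

lemma cr_mono_left {S S' : Finset V} (h : S ⊆ S') (T : Finset V) :
    cr G S T ≤ cr G S' T := by
  rw [cr_comm, cr_comm G S']
  exact cr_mono_right G h T

lemma E2_union_disjoint [DecidableEq V] {S T : Finset V} (h : Disjoint S T) :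
    E2 G (S ∪ T) = E2 G S + E2 G T + 2 * cr G S T := by
  unfold E2
  rw [cr_union_left G h, cr_union_right G h, cr_union_right G h, cr_comm G T S]
  ring

lemma E2_le (S : Finset V) : E2 G S ≤ S.card ^ 2 := by
  classical
  unfold E2 cr
  calc ∑ z ∈ S, (N G z ∩ S).card ≤ ∑ _z ∈ S, S.card :=
        sum_le_sum fun z _ => card_le_card inter_subset_right
    _ = S.card ^ 2 := by rw [sum_const, smul_eq_mul, sq]

/-- The union inequality. -/
lemma E2_union [DecidableEq V] (S T : Finset V) :
    E2 G S + E2 G T + 2 * cr G (T \ S) (S \ T) ≤ E2 G (S ∪ T) + (S ∩ T).card ^ 2 := by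
  have h1 : S ∪ T = S ∪ (T \ S) := by ext; simp
  have h2 : E2 G (S ∪ T) = E2 G S + E2 G (T \ S) + 2 * cr G S (T \ S) := by
    rw [h1]; exact E2_union_disjoint G disjoint_sdiff
  have h3 : T = (T \ S) ∪ (S ∩ T) := by
    ext x; simp only [mem_union, mem_sdiff, mem_inter]; tauto
  have hd3 : Disjoint (T \ S) (S ∩ T) := by
    rw [disjoint_left]; intro x hx hx'
    simp only [mem_sdiff, mem_inter] at hx hx'; tauto
  have h4 : E2 G T = E2 G (T \ S) + E2 G (S ∩ T) + 2 * cr G (T \ S) (S ∩ T) := by
    conv_lhs => rw [h3]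
    exact E2_union_disjoint G hd3
  have h5 : S = (S \ T) ∪ (S ∩ T) := by
    ext x; simp only [mem_union, mem_sdiff, mem_inter]; tauto
  have hd5 : Disjoint (S \ T) (S ∩ T) := by
    rw [disjoint_left]; intro x hx hx'
    simp only [mem_sdiff, mem_inter] at hx hx'; tauto
  have h6 : cr G S (T \ S) = cr G (T \ S) (S \ T) + cr G (T \ S) (S ∩ T) := by
    rw [cr_comm]
    conv_lhs => rw [h5]
    rw [cr_union_right G hd5, ← h5]
  have h7 := E2_le G (S ∩ T)
  omega

lemma U_card (v : V) : (U G v).card = (N G v).card + 1 := by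
  classical
  unfold U
  rw [card_insert_of_notMem]
  simp

lemma E2_U (v : V) : E2 G (U G v) = E2 G (N G v) + 2 * (N G v).card := by
  classical
  have h : U G v = {v} ∪ N G v := by unfold U; ext x; simp
  rw [h, E2_union_disjoint]
  · have h1 : E2 G {v} = 0 := by simp [E2, cr]
    have h2 : cr G {v} (N G v) = (N G v).card := by simp [cr]
    rw [h1, h2]; ring
  · simp

/-- Edges leaving the closed neighbourhood. -/
noncomputable def out (v : V) : ℕ := by
  classical exact ∑ u ∈ N G v, (N G u \ U G v).card

lemma out_eq [DecidableEq V] (v : V) : out G v = ∑ u ∈ N G v, (N G u \ U G v).card := by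
  unfold out
  refine sum_congr rfl fun u _ => ?_
  congr
  exact Subsingleton.elim _ _

lemma out_add (v : V) :
    out G v + E2 G (N G v) + (N G v).card = ∑ u ∈ N G v, (N G u).card := by
  classical
  have h : ∀ u ∈ N G v, (N G u).card = (N G u \ U G v).card + (N G u ∩ N G v).card + 1 := by
    intro u hu
    rw [mem_N] at hu
    have h1 : N G u = (N G u \ U G v) ∪ ((N G u ∩ N G v) ∪ {v}) := by
      ext x
      simp only [mem_N, mem_union, mem_sdiff, mem_U, mem_inter, mem_singleton]
      constructor
      · intro hx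
        by_cases h1 : x = v
        · right; right; exact h1
        · by_cases h2 : G.Adj v x
          · right; left; exact ⟨hx, h2⟩
          · left; exact ⟨hx, by tauto⟩
      · rintro (⟨hx, _⟩ | ⟨hx, _⟩ | rfl)
        · exact hx
        · exact hx
        · exact hu.symm
    conv_lhs => rw [h1]
    rw [card_union_of_disjoint, card_union_of_disjoint, card_singleton]
    · ring
    · rw [disjoint_singleton_right]; simp
    · rw [disjoint_left]
      intro x hx hx'
      simp only [mem_N, mem_union, mem_sdiff, mem_U, mem_inter, mem_singleton] at hx hx'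
      tauto
  rw [sum_congr rfl h, out_eq]
  unfold E2 cr
  simp only [sum_add_distrib, sum_const, smul_eq_mul, mul_one]

/-- Edges from a set outside `U v` into `N v` are counted by `out v`. -/
lemma cr_le_out {S : Finset V} {v : V} (h : Disjoint S (U G v)) : cr G S (N G v) ≤ out G v := by
  classical
  rw [cr_comm, out_eq]
  unfold cr
  refine sum_le_sum fun u _ => card_le_card ?_
  intro x hx
  simp only [mem_inter, mem_sdiff] at hx ⊢
  exact ⟨hx.1, fun hx' => disjoint_left.mp h hx.2 hx'⟩

/-- Counting all ordered adjacent pairs via a set `W` and its complement. -/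
lemma E2_univ (W : Finset V) [DecidableEq V] :
    E2 G W + 2 * ∑ z ∈ Wᶜ, (N G z).card ≤ ∑ z, (N G z).card + Wᶜ.card ^ 2 := by
  have h1 : ∀ S : Finset V, ∑ z ∈ S, (N G z).card = cr G S univ := by
    intro S; unfold cr; simp
  have h2 : (univ : Finset V) = W ∪ Wᶜ := by simp
  have h3 : ∑ z, (N G z).card = E2 G univ := h1 univ
  have h4 : E2 G univ = E2 G W + E2 G Wᶜ + 2 * cr G W Wᶜ := by
    rw [h2]; exact E2_union_disjoint G disjoint_compl_right
  have h5 : ∑ z ∈ Wᶜ, (N G z).card = cr G W Wᶜ + E2 G Wᶜ := by
    rw [h1, h2, cr_union_right G disjoint_compl_right, cr_comm G Wᶜ W]; simp [E2]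
  have h6 := E2_le G Wᶜ
  omega

end Pool.Agent.Helper39.Tri
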