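import Mathlib
import Pool.Agent.Helper39.Tri.Count

/-!
# Lower bound for the number of edges
-/

namespace Pool.Agent.Helper39.Tri

open Finset

variable {V : Type*} [Fintype V] (G : SimpleGraph V)

section basic

variable {G} {t : ℕ} {x : V → ℕ}

lemma out_le (hdeg : ∀ v, (N G v).card = t + x v) (htri : ∀ v, t * t ≤ E2 G (N G v) + t) (v : V) :
    out G v + x v ≤ t * x v + ∑ u, x u := by
  classical
  have h1 := out_add G v
  have h2 : ∑ u ∈ N G v, (N G u).card = t * (t + x v) + ∑ u ∈ N G v, x u := by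
    rw [sum_congr rfl fun u _ => hdeg u, sum_add_distrib, sum_const, smul_eq_mul, hdeg v]
    ring
  have h3 : ∑ u ∈ N G v, x u ≤ ∑ u, x u := sum_le_univ_sum_of_nonneg fun _ => Nat.zero_le _
  have h4 := htri v
  rw [h2, hdeg v] at h1
  nlinarith

lemma E2_U_ge (hdeg : ∀ v, (N G v).card = t + x v) (htri : ∀ v, t * t ≤ E2 G (N G v) + t)
    (v : V) : t * t + t + 2 * x v ≤ E2 G (U G v) := by
  have h1 := E2_U G v
  have h2 := htri v
  rw [hdeg v] at h1
  linarith

lemma U_card' (hdeg : ∀ v, (N G v).card = t + x v) (v : V) : (U G v).card = t + 1 + x v := by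
  rw [U_card, hdeg]; ring

end basic

open Classical in
/-- Union of the first `j` closed neighbourhoods. -/
noncomputable def W (v : ℕ → V) (j : ℕ) : Finset V := (range j).biUnion fun i => U G (v i)

open Classical in
/-- Overlaps. -/
noncomputable def oo (v : ℕ → V) (i : ℕ) : ℕ := (W G v i ∩ U G (v i)).card

open Classical in
/-- Cross edges. -/
noncomputable def yy (v : ℕ → V) (i : ℕ) : ℕ := cr G (U G (v i) \ W G v i) (W G v i \ U G (v i))

open Classical in
/-- Bad vertices. -/
noncomputable def bad (x : V → ℕ) (v : ℕ → V) (i : ℕ) : Finset V :=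
  (U G (v i) \ W G v i).filter fun z => x z < x (v i)

open Classical in
/-- A greedy selection of vertices of small excess with almost disjoint closed neighbourhoods. -/
structure Sel (x : V → ℕ) (s K : ℕ) (v : ℕ → V) (j : ℕ) : Prop where
  low : ∀ i < j, x (v i) ≤ K
  far : ∀ i < j, ∀ l < i, (U G (v i) ∩ U G (v l)).card < s
  min : ∀ i < j, ∀ w, x w < x (v i) → ∃ l < i, s ≤ (U G w ∩ U G (v l)).card

variable {G}

open Classical in
lemma W_succ (v : ℕ → V) (j : ℕ) : W G v (j + 1) = W G v j ∪ U G (v j) := by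
  unfold W
  rw [range_add_one, biUnion_insert, union_comm]

section

variable {t : ℕ} {x : V → ℕ}

lemma W_card (hdeg : ∀ v, (N G v).card = t + x v) (v : ℕ → V) (j : ℕ) :
    (W G v j).card + ∑ i ∈ range j, oo G v i = ∑ i ∈ range j, (t + 1 + x (v i)) := by
  classical
  induction j with
  | zero => simp [W]
  | succ j ih =>
    rw [W_succ, sum_range_succ, sum_range_succ, ← ih, ← U_card' hdeg]
    have h := card_union_add_card_inter (W G v j) (U G (v j))
    have h1 : oo G v j = (W G v j ∩ U G (v j)).card := by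
      unfold oo; congr
    rw [h1]
    linarith

lemma W_E2 (hdeg : ∀ v, (N G v).card = t + x v) (htri : ∀ v, t * t ≤ E2 G (N G v) + t)
    (v : ℕ → V) (j : ℕ) :
    ∑ i ∈ range j, (t * t + t + 2 * x (v i)) + 2 * ∑ i ∈ range j, yy G v i ≤
      E2 G (W G v j) + ∑ i ∈ range j, oo G v i ^ 2 := by
  classical
  induction j with
  | zero => simp [W]
  | succ j ih =>
    rw [W_succ, sum_range_succ, sum_range_succ, sum_range_succ]
    have h := E2_union G (W G v j) (U G (v j))
    have h1 : oo G v j = (W G v j ∩ U G (v j)).card := by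
      unfold oo; congr
    have h2 : yy G v j = cr G (U G (v j) \ W G v j) (W G v j \ U G (v j)) := by
      unfold yy; congr
    have h3 := E2_U_ge hdeg htri (v j)
    rw [← h1, ← h2] at h
    linarith

lemma sum_W (v : ℕ → V) (j : ℕ) [DecidableEq V] :
    ∑ z ∈ W G v j, x z = ∑ i ∈ range j, ∑ z ∈ U G (v i) \ W G v i, x z := by
  induction j with
  | zero => simp [W]
  | succ j ih =>
    rw [sum_range_succ, ← ih]
    have h : W G v (j + 1) = W G v j ∪ (U G (v j) \ W G v j) := by
      have := W_succ (G := G) v j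
      ext z
      have h1 : z ∈ W G v (j + 1) ↔ z ∈ W G v j ∨ z ∈ U G (v j) := by
        rw [this]; simp
      rw [h1]; simp
    rw [h, sum_union disjoint_sdiff]

lemma mem_W {v : ℕ → V} {j : ℕ} {z : V} : z ∈ W G v j ↔ ∃ i < j, z ∈ U G (v i) := by
  unfold W; simp

variable {s K : ℕ} {v : ℕ → V} {k : ℕ}

lemma oo_le (h : Sel G x s K v k) {i : ℕ} (hi : i < k) : oo G v i ≤ k * s := by
  classical
  have h1 : W G v i ∩ U G (v i) ⊆ (range i).biUnion fun l => U G (v i) ∩ U G (v l) := by
    intro z hz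
    rw [mem_inter, mem_W] at hz
    obtain ⟨⟨l, hl, hzl⟩, hz2⟩ := hz
    rw [mem_biUnion]
    exact ⟨l, mem_range.mpr hl, mem_inter.mpr ⟨hz2, hzl⟩⟩
  have h2 : oo G v i = (W G v i ∩ U G (v i)).card := by
    unfold oo; congr
  rw [h2]
  calc (W G v i ∩ U G (v i)).card ≤ ((range i).biUnion fun l => U G (v i) ∩ U G (v l)).card :=
        card_le_card h1
    _ ≤ ∑ l ∈ range i, (U G (v i) ∩ U G (v l)).card := card_biUnion_le
    _ ≤ ∑ _l ∈ range i, s := by
        refine sum_le_sum fun l hl => ?_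
        have := h.far i hi l (mem_range.mp hl)
        have h3 : (U G (v i) ∩ U G (v l)).card < s := by convert this
        exact h3.le
    _ = i * s := by simp
    _ ≤ k * s := Nat.mul_le_mul_right _ hi.le

/-- A vertex `w` outside `U u` whose closed neighbourhood meets `U u` in at least `s` vertices
sends at least `s` edges to `N u`. -/
lemma inter_N {w u : V} (hw : w ∉ U G u) [DecidableEq V] :
    U G w ∩ U G u = N G w ∩ N G u := by
  ext z
  simp only [mem_U, mem_inter, mem_N, not_or] at hw ⊢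
  constructor
  · rintro ⟨h1 | h1, h2 | h2⟩
    · exact absurd (h1.symm.trans h2) hw.1
    · subst h1; exact absurd h2 hw.2
    · subst h2; exact absurd h1.symm hw.2
    · exact ⟨h1, h2⟩
  · rintro ⟨h1, h2⟩
    exact ⟨Or.inr h1, Or.inr h2⟩

/-- Counting vertices outside `U (v l)`, `l < j`, whose closed neighbourhood has a large
intersection with some `U (v l)`. -/
lemma close_count {S : Finset V} {j : ℕ} (hS : ∀ w ∈ S, w ∉ W G v j)
    (hc : ∀ w ∈ S, ∃ l < j, ∃ T : Finset V, s ≤ T.card ∧ ∀ z ∈ T, z ∈ U G w ∧ z ∈ U G (v l)) :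
    s * S.card ≤ ∑ l ∈ range j, out G (v l) := by
  classical
  have h1 : ∀ l ∈ range j, cr G S (N G (v l)) ≤ out G (v l) := by
    intro l hl
    apply cr_le_out
    rw [disjoint_left]
    intro z hz hz'
    exact hS z hz (mem_W.mpr ⟨l, mem_range.mp hl, hz'⟩)
  refine le_trans ?_ (sum_le_sum h1)
  unfold cr
  rw [sum_comm, mul_comm, ← smul_eq_mul, ← sum_const]
  refine sum_le_sum fun w hw => ?_
  obtain ⟨l, hl, T, hT, hT2⟩ := hc w hw
  have h2 : w ∉ U G (v l) := fun h => hS w hw (mem_W.mpr ⟨l, hl, h⟩)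
  have h3 : s ≤ (N G w ∩ N G (v l)).card := by
    rw [← inter_N h2]
    refine hT.trans (card_le_card fun z hz => ?_)
    rw [mem_inter]
    exact hT2 z hz
  refine h3.trans ?_
  refine (Finset.single_le_sum (f := fun l => (N G w ∩ N G (v l)).card)
    (fun _ _ => Nat.zero_le _) (mem_range.mpr hl)).trans (le_of_eq ?_)
  refine sum_congr rfl fun l _ => ?_
  congr

lemma Sel.min' (h : Sel G x s K v k) {i : ℕ} (hi : i < k) {w : V} (hw : x w < x (v i)) :
    ∃ l < i, ∃ T : Finset V, s ≤ T.card ∧ ∀ z ∈ T, z ∈ U G w ∧ z ∈ U G (v l) := by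
  classical
  obtain ⟨l, hl, h1⟩ := h.min i hi w hw
  refine ⟨l, hl, U G w ∩ U G (v l), ?_, fun z hz => mem_inter.mp hz⟩
  convert h1

lemma bad_count (h : Sel G x s K v k) {i : ℕ} (hi : i < k) :
    s * (bad G x v i).card ≤ ∑ l ∈ range i, out G (v l) := by
  classical
  apply close_count
  · intro w hw
    unfold bad at hw
    rw [mem_filter, mem_sdiff] at hw
    exact hw.1.2
  · intro w hw
    unfold bad at hw
    rw [mem_filter, mem_sdiff] at hw
    exact h.min' hi hw.2

lemma bad_gain (h : Sel G x s K v k) {i : ℕ} (hi : i < k) (hb : (bad G x v i).Nonempty) :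
    s ≤ oo G v i + yy G v i := by
  classical
  obtain ⟨w, hw⟩ := hb
  unfold bad at hw
  rw [mem_filter, mem_sdiff] at hw
  obtain ⟨⟨hwU, hwW⟩, hwx⟩ := hw
  obtain ⟨l, hl, T, hT, hT2⟩ := h.min' hi hwx
  have h2 : w ∉ U G (v l) := fun h => hwW (mem_W.mpr ⟨l, hl, h⟩)
  have h3 : T ⊆ (W G v i ∩ U G (v i)) ∪ (N G w ∩ (W G v i \ U G (v i))) := by
    intro z hz
    have h4 := hT2 z hz
    have h5 : z ∈ U G w ∩ U G (v l) := mem_inter.mpr h4
    rw [inter_N h2, mem_inter] at h5
    have h6 : z ∈ W G v i := mem_W.mpr ⟨l, hl, h4.2⟩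
    rw [mem_union, mem_inter, mem_inter, mem_sdiff]
    by_cases h7 : z ∈ U G (v i)
    · left; exact ⟨h6, h7⟩
    · right; exact ⟨h5.1, h6, h7⟩
  have h4 : oo G v i = (W G v i ∩ U G (v i)).card := by
    unfold oo; congr
  have h5 : (N G w ∩ (W G v i \ U G (v i))).card ≤ yy G v i := by
    unfold yy cr
    have hwm : w ∈ U G (v i) \ W G v i := mem_sdiff.mpr ⟨hwU, hwW⟩
    refine (Finset.single_le_sum (f := fun z => (N G z ∩ (W G v i \ U G (v i))).card)
      (fun _ _ => Nat.zero_le _) hwm).trans (le_of_eq ?_)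
    refine sum_congr ?_ fun l _ => ?_
    · congr
    · congr
  calc s ≤ T.card := hT
    _ ≤ _ := card_le_card h3
    _ ≤ (W G v i ∩ U G (v i)).card + (N G w ∩ (W G v i \ U G (v i))).card := card_union_le _ _
    _ ≤ oo G v i + yy G v i := by rw [h4]; omega

end

end Pool.Agent.Helper39.Tri
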