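import Mathlib
import Pool.Agent.Helper39.Tri.Lower

/-!
# Lower bound for the excess
-/

namespace Pool.Agent.Helper39.Tri

open Finset

variable {V : Type*} [Fintype V] {G : SimpleGraph V} {t : ℕ} {x : V → ℕ} {s K k : ℕ}

open Classical in
lemma exists_sel [Nonempty V]
    (hnum : ∀ j < k, ∀ v : ℕ → V, Sel G x s K v j →
      ∃ w, x w ≤ K ∧ ∀ l < j, (U G w ∩ U G (v l)).card < s) :
    ∀ j ≤ k, ∃ v : ℕ → V, Sel G x s K v j := by
  intro j
  induction j with
  | zero =>
    intro _
    exact ⟨fun _ => Classical.arbitrary V, ⟨by simp, by simp, by simp⟩⟩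
  | succ j ih =>
    intro hj
    obtain ⟨v, hv⟩ := ih (by omega)
    obtain ⟨w0, hw0, hw0'⟩ := hnum j (by omega) v hv
    obtain ⟨w1, hw1, hmin⟩ := exists_min_image
      (univ.filter fun w => ∀ l < j, (U G w ∩ U G (v l)).card < s) x
      ⟨w0, by simpa using hw0'⟩
    have hw1' : ∀ l < j, (U G w1 ∩ U G (v l)).card < s := by simpa using hw1
    have hmin' : ∀ w, (∀ l < j, (U G w ∩ U G (v l)).card < s) → x w1 ≤ x w := by
      intro w hw
      exact hmin w (by simpa using hw)
    refine ⟨Function.update v j w1, ?_, ?_, ?_⟩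
    · intro i hi
      rcases Nat.lt_succ_iff_lt_or_eq.mp hi with h | h
      · rw [Function.update_of_ne (by omega)]; exact hv.low i h
      · subst h
        rw [Function.update_self]
        exact (hmin' w0 hw0').trans hw0
    · intro i hi l hl
      rw [Function.update_of_ne (show l ≠ j by omega)]
      rcases Nat.lt_succ_iff_lt_or_eq.mp hi with h | h
      · rw [Function.update_of_ne (show i ≠ j by omega)]
        exact hv.far i h l hl
      · subst h
        rw [Function.update_self]
        exact hw1' l hl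
    · intro i hi w hw
      rcases Nat.lt_succ_iff_lt_or_eq.mp hi with h | h
      · rw [Function.update_of_ne (show i ≠ j by omega)] at hw
        obtain ⟨l, hl, h2⟩ := hv.min i h w hw
        refine ⟨l, hl, ?_⟩
        rw [Function.update_of_ne (show l ≠ j by omega)]
        exact h2
      · subst h
        rw [Function.update_self] at hw
        by_contra hcon
        push Not at hcon
        have : ∀ l < i, (U G w ∩ U G (v l)).card < s := by
          intro l hl
          have h3 := hcon l hl
          rwa [Function.update_of_ne (show l ≠ i by omega)] at h3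
        have := hmin' w this
        omega

/-- Number of vertices of large excess. -/
lemma high_count [DecidableEq V] (K : ℕ) :
    (K + 1) * (univ.filter fun w : V => K < x w).card ≤ ∑ u, x u := by
  rw [mul_comm, ← smul_eq_mul, ← sum_const]
  calc ∑ _w ∈ univ.filter (fun w : V => K < x w), (K + 1)
      ≤ ∑ w ∈ univ.filter (fun w : V => K < x w), x w := by
        refine sum_le_sum fun w hw => ?_
        rw [mem_filter] at hw
        omega
    _ ≤ ∑ u, x u := sum_le_univ_sum_of_nonneg fun _ => Nat.zero_le _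

section arith

lemma arith_first {k A s t D a o y R : ℕ}
    (h1 : k * (t * t + t) + 2 * a + 2 * y + 2 * (t * R) ≤
        (k * (t + 1) + 3 * A) * t + D + R ^ 2 + k * s * o)
    (hRa : R + a = 3 * A + o) (hok : o ≤ k * (k * s)) (h3 : 6 * A + k * (k * s) + k * s ≤ t) :
    3 * A * t + t * o + 2 * y ≤ D + 2 * t * a + 9 * A ^ 2 := by
  have h2 : R ^ 2 ≤ 9 * A ^ 2 + o * (6 * A + k * (k * s)) := by
    have : R ≤ 3 * A + o := by omega
    calc R ^ 2 ≤ (3 * A + o) ^ 2 := Nat.pow_le_pow_left this 2
      _ = 9 * A ^ 2 + o * (6 * A + o) := by ring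
      _ ≤ _ := by
        apply Nat.add_le_add_left
        apply Nat.mul_le_mul_left
        omega
  have h4 : o * (6 * A + k * (k * s) + k * s) ≤ o * t := Nat.mul_le_mul_left _ h3
  have h5 : t * R + t * a = 3 * A * t + t * o := by
    rw [← mul_add, hRa]; ring
  linarith

lemma arith_h3 {k A s t : ℕ} (hkA : k ≤ A) (hsA : A ≤ s) (ht : 16 * (A + 1) ^ 2 * s ≤ t) :
    6 * A + k * (k * s) + k * s ≤ t := by
  have h5 : k * (k * s) ≤ (A + 1) ^ 2 * s := by
    have : k * k ≤ (A + 1) ^ 2 := by
      rw [sq]; exact Nat.mul_le_mul (by omega) (by omega)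
    calc k * (k * s) = k * k * s := by ring
      _ ≤ _ := Nat.mul_le_mul_right _ this
  have h6 : k * s ≤ (A + 1) ^ 2 * s := by
    apply Nat.mul_le_mul_right
    calc k ≤ (A + 1) * 1 := by omega
      _ ≤ (A + 1) * (A + 1) := Nat.mul_le_mul_left _ (by omega)
      _ = _ := by ring
  have h7 : A ≤ (A + 1) ^ 2 * s := by
    calc A ≤ 1 * s := by omega
      _ ≤ _ := Nat.mul_le_mul_right _ (Nat.one_le_pow _ _ (by omega))
  have h8 : 16 * (A + 1) ^ 2 * s = 16 * ((A + 1) ^ 2 * s) := by ring
  omega

end arith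

/-- Existence of the selection. -/
lemma sel_exists {A : ℕ} (hk : 1 ≤ k) (hA : A = 3 * k + 1) (hs : s = 24 * k * A * (A + 1))
    (ht : 16 * (A + 1) * (A + 1) ≤ t) (hcard : Fintype.card V = k * (t + 1) + 3 * A)
    (hdeg : ∀ v, (N G v).card = t + x v)
    (hD : ∑ v, x v ≤ A * (t + 4)) (hK : K + 1 = 4 * A)
    (hout : ∀ v, x v ≤ K → out G v ≤ 5 * A * t) :
    ∃ v : ℕ → V, Sel G x s K v k := by
  classical
  have : Nonempty V := by
    rw [← Fintype.card_pos_iff, hcard]; positivity
  apply exists_sel _ k le_rfl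
  intro j hj v hv
  by_contra hcon
  push Not at hcon
  obtain ⟨S, hS⟩ : ∃ S : Finset V, S = univ.filter (fun w => x w ≤ K ∧ w ∉ W G v j) := ⟨_, rfl⟩
  have h1 : s * S.card ≤ ∑ l ∈ range j, out G (v l) := by
    apply close_count
    · intro w hw
      rw [hS, mem_filter] at hw
      exact hw.2.2
    · intro w hw
      rw [hS, mem_filter] at hw
      obtain ⟨l, hl, h2⟩ := hcon w hw.2.1
      exact ⟨l, hl, U G w ∩ U G (v l), h2, fun z hz => mem_inter.mp hz⟩
  have h2 : ∑ l ∈ range j, out G (v l) ≤ j * (5 * A * t) := by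
    calc ∑ l ∈ range j, out G (v l) ≤ ∑ _l ∈ range j, 5 * A * t :=
          sum_le_sum fun l hl => hout _ (hv.low l (mem_range.mp hl))
      _ = _ := by simp
  obtain ⟨h, hh⟩ : ∃ h, h = (univ.filter fun w : V => K < x w).card := ⟨_, rfl⟩
  have h3 : Fintype.card V ≤ S.card + h + (W G v j).card := by
    rw [← card_univ, hh]
    have h4 : (univ : Finset V) ⊆ (S ∪ (univ.filter fun w : V => K < x w)) ∪ W G v j := by
      intro w _
      rw [mem_union, mem_union, hS, mem_filter, mem_filter]
      by_cases h5 : x w ≤ K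
      · by_cases h6 : w ∈ W G v j
        · right; exact h6
        · left; left; exact ⟨mem_univ _, h5, h6⟩
      · left; right; exact ⟨mem_univ _, by omega⟩
    calc (univ : Finset V).card ≤ _ := card_le_card h4
      _ ≤ _ := (card_union_le _ _).trans (Nat.add_le_add_right (card_union_le _ _) _)
  have h4 : (W G v j).card ≤ j * (t + 1 + K) := by
    have h5 := W_card hdeg v j
    have h6 : ∑ i ∈ range j, (t + 1 + x (v i)) ≤ ∑ _i ∈ range j, (t + 1 + K) :=
      sum_le_sum fun l hl => by have := hv.low l (mem_range.mp hl); omega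
    rw [sum_const, card_range, smul_eq_mul] at h6
    omega
  have h5 := high_count (V := V) (x := x) K
  rw [hK, ← hh] at h5
  have h6 : 4 * h ≤ t + 4 := by
    have : A * (4 * h) ≤ A * (t + 4) := by
      calc A * (4 * h) = 4 * A * h := by ring
        _ ≤ ∑ u, x u := h5
        _ ≤ _ := hD
    exact Nat.le_of_mul_le_mul_left this (by omega)
  obtain ⟨k', rfl⟩ : ∃ k', k = k' + 1 := ⟨k - 1, by omega⟩
  have h7 : j * (t + 1 + K) ≤ k' * (t + 1 + K) := Nat.mul_le_mul_right _ (by omega)
  -- `S.card ≥ t / 2`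
  have h8 : t ≤ 2 * S.card := by
    rw [hcard] at h3
    have h9 : k' * K ≤ (A + 1) * (4 * (A + 1)) := Nat.mul_le_mul (by omega) (by omega)
    have h10 : k' * (t + 1 + K) = k' * (t + 1) + k' * K := by ring
    have h11 : (k' + 1) * (t + 1) = k' * (t + 1) + (t + 1) := by ring
    have h12 : (A + 1) * (4 * (A + 1)) = 4 * ((A + 1) * (A + 1)) := by ring
    have h13 : 16 * (A + 1) * (A + 1) = 16 * ((A + 1) * (A + 1)) := by ring
    omega
  have h9 : s * t ≤ (10 * (k' + 1) * A) * t := by
    calc s * t ≤ s * (2 * S.card) := Nat.mul_le_mul_left _ h8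
      _ = 2 * (s * S.card) := by ring
      _ ≤ 2 * (j * (5 * A * t)) := Nat.mul_le_mul_left _ (h1.trans h2)
      _ ≤ 2 * ((k' + 1) * (5 * A * t)) :=
          Nat.mul_le_mul_left _ (Nat.mul_le_mul_right _ (by omega))
      _ = _ := by ring
  have htpos : 0 < t := by
    have : 0 < 16 * (A + 1) * (A + 1) := by positivity
    omega
  have h10 : s ≤ 10 * (k' + 1) * A := Nat.le_of_mul_le_mul_right h9 htpos
  have h11 : 10 * (k' + 1) * A < 24 * (k' + 1) * A * (A + 1) := by
    have hA0 : 0 < A := by omega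
    calc 10 * (k' + 1) * A < 24 * (k' + 1) * A := by
          apply Nat.mul_lt_mul_of_pos_right _ hA0
          omega
      _ ≤ 24 * (k' + 1) * A * (A + 1) := Nat.le_mul_of_pos_right _ (by omega)
  omega

/-- **Main lower bound.** -/
theorem lower {A : ℕ} (hk : 1 ≤ k) (hA : A = 3 * k + 1) (hs : s = 24 * k * A * (A + 1))
    (ht : 16 * (A + 1) ^ 2 * s ≤ t) (hcard : Fintype.card V = k * (t + 1) + 3 * A)
    (hdeg : ∀ v, (N G v).card = t + x v) (htri : ∀ v, t * t ≤ E2 G (N G v) + t) :
    A * (t + 4) < ∑ v, x v := by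
  classical
  by_contra hD
  push Not at hD
  have hA4 : 4 ≤ A := by omega
  have hkA : k ≤ A := by omega
  have hs24 : 24 * (A * (A + 1)) ≤ s := by
    rw [hs]
    calc 24 * (A * (A + 1)) = 1 * (24 * (A * (A + 1))) := by ring
      _ ≤ k * (24 * (A * (A + 1))) := Nat.mul_le_mul_right _ hk
      _ = _ := by ring
  have hAA : A * A ≤ A * (A + 1) := Nat.mul_le_mul_left _ (by omega)
  have hAA4 : 4 * A ≤ A * A := Nat.mul_le_mul_right _ hA4
  have hspos : 0 < s := by omega
  have hsA : A ≤ s := by omega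
  have hsq : (A + 1) ^ 2 = A * A + 2 * A + 1 := by ring
  have ht1 : 16 * (A + 1) ^ 2 ≤ 16 * (A + 1) ^ 2 * s := Nat.le_mul_of_pos_right _ hspos
  have ht2 : 16 * (A + 1) * (A + 1) ≤ t := by
    calc 16 * (A + 1) * (A + 1) = 16 * (A + 1) ^ 2 := by ring
      _ ≤ _ := ht1
      _ ≤ _ := ht
  have ht16s : 16 * s ≤ t := by
    refine le_trans ?_ ht
    calc 16 * s = 16 * 1 * s := by ring
      _ ≤ _ := Nat.mul_le_mul_right _ (Nat.mul_le_mul_left _ (Nat.one_le_pow _ _ (by omega)))
  have ht4A : 16 * A ≤ t := by omega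
  -- K
  obtain ⟨K, hK⟩ : ∃ K, K + 1 = 4 * A := ⟨4 * A - 1, by omega⟩
  have hout : ∀ v, x v ≤ K → out G v ≤ 5 * A * t := by
    intro v hv
    have h1 := out_le hdeg htri v
    have h2 : t * x v ≤ t * K := Nat.mul_le_mul_left t hv
    have h3 : t * (K + 1) = 4 * A * t := by rw [hK]; ring
    have h4 : A * (t + 4) = A * t + 4 * A := by ring
    have h5 : t * (K + 1) = t * K + t := by ring
    have h6 : 5 * A * t = 4 * A * t + A * t := by ring
    omega
  -- selection
  obtain ⟨v, hv⟩ := sel_exists hk hA hs ht2 hcard hdeg hD hK hout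
  -- numbers
  obtain ⟨D, hDdef⟩ : ∃ D, D = ∑ v, x v := ⟨_, rfl⟩
  obtain ⟨a, ha⟩ : ∃ a, a = ∑ i ∈ range k, x (v i) := ⟨_, rfl⟩
  obtain ⟨o, ho⟩ : ∃ o, o = ∑ i ∈ range k, oo G v i := ⟨_, rfl⟩
  obtain ⟨y, hy⟩ : ∃ y, y = ∑ i ∈ range k, yy G v i := ⟨_, rfl⟩
  rw [← hDdef] at hD
  have hW1 : (W G v k).card + o = k * (t + 1) + a := by
    rw [ho, W_card hdeg v k, sum_add_distrib]; simp [ha]
  have hR : (W G v k)ᶜ.card + (W G v k).card = k * (t + 1) + 3 * A := by
    rw [← hcard, add_comm]; exact card_add_card_compl _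
  have hE := W_E2 hdeg htri v k
  have hE' : ∑ i ∈ range k, (t * t + t + 2 * x (v i)) = k * (t * t + t) + 2 * a := by
    rw [sum_add_distrib, ← mul_sum]; simp [ha]
  have hoo2 : ∑ i ∈ range k, oo G v i ^ 2 ≤ k * s * o := by
    rw [ho, mul_sum]
    refine sum_le_sum fun i hi => ?_
    rw [sq]
    exact Nat.mul_le_mul_right _ (oo_le hv (mem_range.mp hi))
  have hok : o ≤ k * (k * s) := by
    calc o ≤ ∑ _i ∈ range k, k * s := by
          rw [ho]; exact sum_le_sum fun i hi => oo_le hv (mem_range.mp hi)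
      _ = _ := by simp
  have hU := E2_univ G (W G v k)
  have hU1 : ∑ z, (N G z).card = (k * (t + 1) + 3 * A) * t + D := by
    rw [sum_congr rfl fun z _ => hdeg z, sum_add_distrib, sum_const, card_univ, hcard, smul_eq_mul,
      ← hDdef]
  have hU2 : t * (W G v k)ᶜ.card ≤ ∑ z ∈ (W G v k)ᶜ, (N G z).card := by
    rw [sum_congr rfl fun z _ => hdeg z, sum_add_distrib, sum_const, smul_eq_mul, mul_comm]
    omega
  obtain ⟨R, hRdef⟩ : ∃ R, R = (W G v k)ᶜ.card := ⟨_, rfl⟩
  rw [← hRdef] at hR hU hU2
  have hRa : R + a = 3 * A + o := by omega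
  -- first bound
  have hfirst : 3 * A * t + t * o + 2 * y ≤ D + 2 * t * a + 9 * A ^ 2 := by
    have h1 : k * (t * t + t) + 2 * a + 2 * y + 2 * (t * R) ≤
        (k * (t + 1) + 3 * A) * t + D + R ^ 2 + k * s * o := by
      rw [hE', ← hy] at hE
      rw [hU1] at hU
      omega
    exact arith_first h1 hRa hok (arith_h3 hkA hsA ht)
  have h2t : 2 * s ≤ t := by omega
  -- `y`, `o` and bad vertices
  have hcase : (∀ i < k, oo G v i = 0 ∧ bad G x v i = ∅) ∨ 2 * s ≤ t * o + 2 * y := by
    by_cases h : ∀ i < k, oo G v i = 0 ∧ bad G x v i = ∅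
    · left; exact h
    · right
      push Not at h
      obtain ⟨i, hi, h1⟩ := h
      have h2 : oo G v i ≤ o := by
        rw [ho]
        exact single_le_sum (f := fun i => oo G v i) (fun _ _ => Nat.zero_le _) (mem_range.mpr hi)
      have h3 : yy G v i ≤ y := by
        rw [hy]
        exact single_le_sum (f := fun i => yy G v i) (fun _ _ => Nat.zero_le _) (mem_range.mpr hi)
      by_cases h4 : oo G v i = 0
      · have h5 : (bad G x v i).Nonempty := h1 h4
        have h6 := bad_gain hv hi h5
        omega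
      · have h5 : 1 ≤ o := by omega
        have h6 : t * 1 ≤ t * o := Nat.mul_le_mul_left _ h5
        omega
  -- second bound
  have hsum : ∑ i ∈ range k, ∑ z ∈ U G (v i) \ W G v i, x z ≤ D := by
    rw [← sum_W, hDdef]
    exact sum_le_univ_sum_of_nonneg fun _ => Nat.zero_le _
  have hUW : ∀ i, (U G (v i) \ W G v i).card + oo G v i = t + 1 + x (v i) := by
    intro i
    rw [← U_card' hdeg]
    have h4 : oo G v i = (U G (v i) ∩ W G v i).card := by
      unfold oo; rw [inter_comm]
    rw [h4]
    exact card_sdiff_add_card_inter _ _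
  have hpart : ∀ i < k, x (v i) * (U G (v i) \ W G v i).card ≤
      ∑ z ∈ U G (v i) \ W G v i, x z + x (v i) * (bad G x v i).card := by
    intro i _
    have h1 : (bad G x v i) = (U G (v i) \ W G v i).filter fun z => x z < x (v i) := by
      unfold bad; congr
    have h2 : ∑ z ∈ U G (v i) \ W G v i, x (v i) ≤
        ∑ z ∈ U G (v i) \ W G v i, (x z + if x z < x (v i) then x (v i) else 0) := by
      refine sum_le_sum fun z _ => ?_
      split_ifs <;> omega
    rw [sum_const, smul_eq_mul, sum_add_distrib, ← sum_filter, sum_const, smul_eq_mul] at h2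
    rw [h1]
    linarith
  rcases lt_trichotomy a A with haA | haA | haA
  · -- `a < A`
    have h1 : 2 * t * a + 2 * t ≤ 2 * t * A := by
      have : 2 * t * (a + 1) ≤ 2 * t * A := Nat.mul_le_mul_left _ haA
      linarith
    have h2 : 2 * t * A = 2 * (A * t) := by ring
    have h3 : 3 * A * t = 3 * (A * t) := by ring
    have h4 : A * (t + 4) = A * t + 4 * A := by ring
    have h5 : 9 * A ^ 2 = 9 * (A * A) := by ring
    omega
  · rcases hcase with hc | hc
    · -- the exact case
      have h1 : ∑ i ∈ range k, x (v i) * (t + 1 + x (v i)) ≤ D := by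
        refine le_trans (sum_le_sum fun i hi => ?_) hsum
        obtain ⟨h2, h3⟩ := hc i (mem_range.mp hi)
        have h4 := hUW i
        have h5 := hpart i (mem_range.mp hi)
        rw [h3, card_empty, mul_zero, add_zero] at h5
        rw [h2, add_zero] at h4
        rwa [h4] at h5
      have h2 : ∑ i ∈ range k, x (v i) * (t + 1 + x (v i)) =
          a * (t + 1) + ∑ i ∈ range k, x (v i) ^ 2 := by
        rw [ha, sum_mul, ← sum_add_distrib]
        exact sum_congr rfl fun i _ => by ring
      have h3 : a ^ 2 ≤ k * ∑ i ∈ range k, x (v i) ^ 2 := by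
        have := sq_sum_le_card_mul_sum_sq (s := range k) (f := fun i => x (v i))
        rw [ha]
        simpa using this
      rw [h2, haA] at h1
      rw [haA] at h3
      obtain ⟨Q, hQ⟩ : ∃ Q, Q = ∑ i ∈ range k, x (v i) ^ 2 := ⟨_, rfl⟩
      rw [← hQ] at h1 h3
      have h4 : Q ≤ 3 * A := by
        have e1 : A * (t + 1) = A * t + A := by ring
        have e2 : A * (t + 4) = A * t + 4 * A := by ring
        omega
      have h5 : k * Q ≤ k * (3 * A) := Nat.mul_le_mul_left _ h4
      have h6 : A * A ≤ (3 * k) * A := by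
        calc A * A = A ^ 2 := by ring
          _ ≤ k * (3 * A) := h3.trans h5
          _ = _ := by ring
      have h7 : A ≤ 3 * k := Nat.le_of_mul_le_mul_right h6 (by omega)
      omega
    · rw [haA] at hfirst
      have h2 : 2 * t * A = 2 * (A * t) := by ring
      have h3 : 3 * A * t = 3 * (A * t) := by ring
      have h4 : A * (t + 4) = A * t + 4 * A := by ring
      have h5 : 9 * A ^ 2 = 9 * (A * A) := by ring
      omega
  · -- `a > A`
    have hbad : ∀ i < k, 24 * ((A + 1) * (bad G x v i).card) ≤ 5 * t := by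
      intro i hi
      have h1 := bad_count hv hi
      have h2 : ∑ l ∈ range i, out G (v l) ≤ k * (5 * A * t) := by
        calc ∑ l ∈ range i, out G (v l) ≤ ∑ _l ∈ range i, 5 * A * t :=
              sum_le_sum fun l hl => hout _ (hv.low l (by have := mem_range.mp hl; omega))
          _ = i * (5 * A * t) := by simp
          _ ≤ _ := Nat.mul_le_mul_right _ hi.le
      have h3 : (k * A) * (24 * ((A + 1) * (bad G x v i).card)) ≤ (k * A) * (5 * t) := by
        calc (k * A) * (24 * ((A + 1) * (bad G x v i).card)) = s * (bad G x v i).card := by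
              rw [hs]; ring
          _ ≤ _ := h1.trans h2
          _ = _ := by ring
      exact Nat.le_of_mul_le_mul_left h3 (by positivity)
    have h5' : 16 * ((A + 1) * (k * s)) ≤ t := by
      refine le_trans ?_ ht
      calc 16 * ((A + 1) * (k * s)) = 16 * ((A + 1) * k) * s := by ring
        _ ≤ 16 * ((A + 1) * (A + 1)) * s := by
            apply Nat.mul_le_mul_right
            apply Nat.mul_le_mul_left
            exact Nat.mul_le_mul_left _ (by omega)
        _ = _ := by ring
    -- each part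
    have hpart2 : ∀ i ∈ range k, 2 * ((A + 1) * (x (v i) * t)) ≤
        2 * ((A + 1) * ∑ z ∈ U G (v i) \ W G v i, x z) + x (v i) * t := by
      intro i hi
      have hi := mem_range.mp hi
      have h1 := hUW i
      have h2 := hpart i hi
      have h3 := hbad i hi
      have h4 := oo_le hv hi
      have h6 : 16 * ((A + 1) * oo G v i) ≤ t :=
        le_trans (Nat.mul_le_mul_left _ (Nat.mul_le_mul_left _ h4)) h5'
      have h7 : (A + 1) * t ≤ (A + 1) * (U G (v i) \ W G v i).card + (A + 1) * oo G v i := by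
        have : t ≤ (U G (v i) \ W G v i).card + oo G v i := by omega
        calc (A + 1) * t ≤ (A + 1) * ((U G (v i) \ W G v i).card + oo G v i) :=
              Nat.mul_le_mul_left _ this
          _ = _ := by ring
      have h8 : 2 * ((A + 1) * (oo G v i)) + 2 * ((A + 1) * (bad G x v i).card) ≤ t := by
        omega
      have h9 : x (v i) * ((A + 1) * t) ≤ x (v i) *
          ((A + 1) * (U G (v i) \ W G v i).card + (A + 1) * oo G v i) :=
        Nat.mul_le_mul_left _ h7
      have h10 : x (v i) * (2 * ((A + 1) * (oo G v i)) + 2 * ((A + 1) * (bad G x v i).card)) ≤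
          x (v i) * t := Nat.mul_le_mul_left _ h8
      have h11 := Nat.mul_le_mul_left (A + 1) h2
      linarith
    have hfin := sum_le_sum hpart2
    rw [sum_add_distrib, ← mul_sum, ← mul_sum, ← sum_mul, ← ha, ← mul_sum, ← mul_sum] at hfin
    have h12 : 2 * ((A + 1) * (a * t)) ≤ 2 * ((A + 1) * D) + a * t := by
      have := Nat.mul_le_mul_left (A + 1) hsum
      linarith
    -- `(2A+1) a t ≤ 2 (A+1) D ≤ 2 (A+1) A (t+4)`
    have h13 : (A + 1) * D ≤ (A + 1) * (A * (t + 4)) := Nat.mul_le_mul_left _ hD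
    have h14 : (2 * A + 1) * ((A + 1) * t) ≤ (2 * A + 1) * (a * t) :=
      Nat.mul_le_mul_left _ (Nat.mul_le_mul_right _ haA)
    have h15 : (A + 1) * ((2 * A + 1) * t) ≤ (A + 1) * (2 * (A * (t + 4))) := by linarith
    have h16 : (2 * A + 1) * t ≤ 2 * (A * (t + 4)) := Nat.le_of_mul_le_mul_left h15 (by omega)
    have h17 : (2 * A + 1) * t = 2 * (A * t) + t := by ring
    have h18 : 2 * (A * (t + 4)) = 2 * (A * t) + 8 * A := by ring
    omega

end Pool.Agent.Helper39.Tri
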