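import Mathlib
import Pool.Agent.Helper39.Tri.Count

/-!
# Triangle degrees as counts of ordered pairs
-/

namespace Pool.Agent.Helper39.Tri

open Finset

section

variable {V : Type*} [Fintype V] (G : SimpleGraph V)

/-- Twice the triangle degree is the number of ordered adjacent pairs in the neighbourhood. -/
lemma two_triDeg (v : V) : 2 * triDeg G v = E2 G (N G v) := by
  classical
  set P : Finset (V × V) := (N G v ×ˢ N G v).filter fun p => G.Adj p.1 p.2 with hP
  have h1 : E2 G (N G v) = P.card := by
    unfold E2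
    rw [cr_eq, ← sum_product', hP, card_filter]
  set Ts : Finset (Finset V) := univ.filter fun s => G.IsNClique 3 s ∧ v ∈ s with hTs
  have h2 : triDeg G v = Ts.card := by
    unfold triDeg
    rw [Set.ncard_eq_toFinset_card']
    congr 1
    ext s
    simp [hTs]
  have hmap : ∀ p ∈ P, ({v, p.1, p.2} : Finset V) ∈ Ts := by
    rintro ⟨a, b⟩ hp
    simp only [hP, mem_filter, mem_product, mem_N] at hp
    simp only [hTs, mem_filter, mem_univ, true_and]
    refine ⟨?_, by simp⟩
    rw [SimpleGraph.is3Clique_triple_iff]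
    exact ⟨hp.1.1, hp.1.2, hp.2⟩
  have hfib : ∀ s ∈ Ts, (P.filter fun p => ({v, p.1, p.2} : Finset V) = s).card = 2 := by
    intro s hs
    simp only [hTs, mem_filter, mem_univ, true_and] at hs
    obtain ⟨hs3, hvs⟩ := hs
    obtain ⟨a, b, c, hab, hac, hbc, rfl⟩ := SimpleGraph.is3Clique_iff.mp hs3
    -- reduce to the case `v = a`
    have key : ∀ b c : V, G.Adj v b → G.Adj v c → G.Adj b c →
        (P.filter fun p => ({v, p.1, p.2} : Finset V) = {v, b, c}).card = 2 := by
      intro b c hb hc hbc
      have : (P.filter fun p => ({v, p.1, p.2} : Finset V) = {v, b, c}) = {(b, c), (c, b)} := by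
        ext ⟨p, q⟩
        simp only [hP, mem_filter, mem_product, mem_N, mem_insert, mem_singleton, Prod.mk.injEq]
        constructor
        · rintro ⟨⟨⟨hp, hq⟩, hpq⟩, heq⟩
          have hp' : p ∈ ({v, b, c} : Finset V) := by rw [← heq]; simp
          have hq' : q ∈ ({v, b, c} : Finset V) := by rw [← heq]; simp
          simp only [mem_insert, mem_singleton] at hp' hq'
          have hpv := hp.ne'
          have hqv := hq.ne'
          have hpq' := hpq.ne
          rcases hp' with h | h | h
          · exact absurd h hpv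
          · rcases hq' with h' | h' | h'
            · exact absurd h' hqv
            · exact absurd (h.trans h'.symm) hpq'
            · left; exact ⟨h, h'⟩
          · rcases hq' with h' | h' | h'
            · exact absurd h' hqv
            · right; exact ⟨h, h'⟩
            · exact absurd (h.trans h'.symm) hpq'
        · rintro (⟨rfl, rfl⟩ | ⟨rfl, rfl⟩)
          · exact ⟨⟨⟨hb, hc⟩, hbc⟩, rfl⟩
          · refine ⟨⟨⟨hc, hb⟩, hbc.symm⟩, ?_⟩
            rw [pair_comm]
      rw [this, card_pair]
      intro h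
      exact hbc.ne (Prod.mk.inj h).1
    simp only [mem_insert, mem_singleton] at hvs
    rcases hvs with h | h | h
    · subst h; exact key b c hab hac hbc
    · subst h
      have := key a c hab.symm hbc hac
      rwa [show ({v, a, c} : Finset V) = {a, v, c} from insert_comm _ _ _] at this
    · subst h
      have := key a b hac.symm hbc.symm hab
      rwa [show ({v, a, b} : Finset V) = {a, b, v} by
        ext z; simp only [mem_insert, mem_singleton]; tauto] at this
  have h3 := card_eq_sum_card_fiberwise (f := fun p : V × V => ({v, p.1, p.2} : Finset V)) hmap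
  rw [h1, h2, h3, sum_congr rfl hfib, sum_const, smul_eq_mul, mul_comm]

lemma two_choose (t : ℕ) : 2 * t.choose 2 + t = t * t := by
  have := Nat.choose_two_right t
  rcases t with _ | t
  · simp
  · have h2 : 2 * (t + 1).choose 2 = (t + 1) * t := by
      rw [Nat.choose_two_right, Nat.add_sub_cancel]
      exact Nat.mul_div_cancel' (by rw [mul_comm]; exact (Nat.even_mul_succ_self t).two_dvd)
    rw [h2]; ring

lemma inG_iff (t : ℕ) : InG t G ↔ ∀ v, t * t ≤ E2 G (N G v) + t := by
  unfold InG
  refine forall_congr' fun v => ?_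
  have h1 := two_triDeg G v
  have h2 := two_choose t
  constructor <;> intro h <;> omega

lemma E2_N_le (v : V) : E2 G (N G v) + (N G v).card ≤ (N G v).card * (N G v).card := by
  classical
  unfold E2 cr
  rw [← smul_eq_mul ((N G v).card) ((N G v).card), ← sum_const, card_eq_sum_ones,
    ← sum_add_distrib]
  refine sum_le_sum fun u hu => ?_
  have : (N G u ∩ N G v) ⊆ (N G v).erase u := by
    intro z hz
    simp only [mem_inter, mem_N, mem_erase] at hz ⊢
    exact ⟨hz.1.ne', hz.2⟩
  have h2 := card_le_card this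
  rw [card_erase_of_mem hu] at h2
  have h3 : 0 < (N G v).card := card_pos.mpr ⟨u, hu⟩
  have h4 : ∑ x ∈ N G v, 1 = (N G v).card := by simp
  rw [h4]
  omega

lemma le_deg {t : ℕ} (ht : 2 ≤ t) (h : ∀ v, t * t ≤ E2 G (N G v) + t) (v : V) :
    t ≤ (N G v).card := by
  have h1 := h v
  have h2 := E2_N_le G v
  by_contra hcon
  push Not at hcon
  obtain ⟨d, hd⟩ : ∃ d, d = (N G v).card := ⟨_, rfl⟩
  rw [← hd] at h2 hcon
  obtain ⟨e, rfl⟩ : ∃ e, t = d + 1 + e := ⟨t - d - 1, by omega⟩
  nlinarith

lemma sum_N : ∑ v, (N G v).card = 2 * G.edgeSet.ncard := by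
  classical
  have h1 := G.sum_degrees_eq_twice_card_edges
  have h2 : G.edgeSet.ncard = G.edgeFinset.card := by
    rw [Set.ncard_eq_toFinset_card', SimpleGraph.edgeFinset]
  rw [h2, ← h1]
  refine sum_congr rfl fun v _ => ?_
  rw [← SimpleGraph.card_neighborFinset_eq_degree]
  congr 1
  ext w
  simp

end

section transport

variable {V W : Type*} [Fintype V] [Fintype W]

lemma N_iso {G : SimpleGraph V} {H : SimpleGraph W} (e : V ≃ W)
    (he : ∀ a b, G.Adj a b ↔ H.Adj (e a) (e b)) (v : V) :
    N H (e v) = (N G v).map e.toEmbedding := by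
  classical
  ext w
  simp only [mem_N, mem_map, Equiv.coe_toEmbedding]
  constructor
  · intro h
    refine ⟨e.symm w, ?_, by simp⟩
    rw [he]; simpa using h
  · rintro ⟨a, ha, rfl⟩
    rwa [← he]

lemma cr_iso {G : SimpleGraph V} {H : SimpleGraph W} (e : V ≃ W)
    (he : ∀ a b, G.Adj a b ↔ H.Adj (e a) (e b)) (S T : Finset V) :
    cr H (S.map e.toEmbedding) (T.map e.toEmbedding) = cr G S T := by
  classical
  rw [cr_eq, cr_eq, sum_map]
  refine sum_congr rfl fun a _ => ?_
  rw [sum_map]
  refine sum_congr rfl fun b _ => ?_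
  simp only [Equiv.coe_toEmbedding]
  simp only [he]

lemma inG_iso {G : SimpleGraph V} {H : SimpleGraph W} (e : V ≃ W)
    (he : ∀ a b, G.Adj a b ↔ H.Adj (e a) (e b)) {t : ℕ} (h : InG t G) : InG t H := by
  rw [inG_iff] at h ⊢
  intro w
  obtain ⟨v, rfl⟩ := e.surjective w
  rw [N_iso e he]
  unfold E2
  rw [cr_iso e he]
  exact h v

lemma sum_N_iso {G : SimpleGraph V} {H : SimpleGraph W} (e : V ≃ W)
    (he : ∀ a b, G.Adj a b ↔ H.Adj (e a) (e b)) :
    ∑ w, (N H w).card = ∑ v, (N G v).card := by
  rw [← e.sum_comp]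
  refine sum_congr rfl fun v _ => ?_
  rw [N_iso e he, card_map]

/-- Every graph is isomorphic to one on `Fin n`. -/
lemma to_fin {G : SimpleGraph V} {n t : ℕ} (hn : Fintype.card V = n) (h : InG t G) :
    ∃ H : SimpleGraph (Fin n), InG t H ∧ ∑ w, (N H w).card = ∑ v, (N G v).card := by
  let e : V ≃ Fin n := Fintype.equivFinOfCardEq hn
  have he : ∀ a b, G.Adj a b ↔ (G.comap e.symm).Adj (e a) (e b) := by
    intro a b; simp
  exact ⟨G.comap e.symm, inG_iso e he h, sum_N_iso e he⟩

end transport

section closed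

variable {V : Type*} [Fintype V] (G : SimpleGraph V) (S : Set V) [Fintype S]

lemma N_induce (hS : ∀ v ∈ S, ∀ w, G.Adj v w → w ∈ S) (v : S) :
    (N (G.induce S) v).map (Function.Embedding.subtype _) = N G v := by
  classical
  ext w
  simp only [mem_map, mem_N, Function.Embedding.coe_subtype]
  constructor
  · rintro ⟨a, ha, rfl⟩
    simpa using ha
  · intro h
    exact ⟨⟨w, hS v v.2 w h⟩, by simpa using h, rfl⟩

lemma card_N_induce (hS : ∀ v ∈ S, ∀ w, G.Adj v w → w ∈ S) (v : S) :
    (N (G.induce S) v).card = (N G v).card := by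
  rw [← N_induce G S hS v, card_map]

lemma inG_induce {t : ℕ} (hS : ∀ v ∈ S, ∀ w, G.Adj v w → w ∈ S) (h : InG t G) :
    InG t (G.induce S) := by
  classical
  rw [inG_iff] at h ⊢
  intro v
  have h1 := h v
  have h2 : E2 (G.induce S) (N (G.induce S) v) = E2 G (N G v) := by
    unfold E2
    rw [← N_induce G S hS v, cr_eq, cr_eq, sum_map]
    refine sum_congr rfl fun a _ => ?_
    rw [sum_map]
    refine sum_congr rfl fun b _ => ?_
    simp only [SimpleGraph.comap_adj, Function.Embedding.subtype_apply]
    congr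
  rw [h2]; exact h1

/-- Removing an isolated clique. -/
lemma strip {t : ℕ} (h : InG t G) (hc : HasIsolatedClique t G) :
    ∃ (W : Type) (_ : Fintype W) (H : SimpleGraph W), InG t H ∧
      Fintype.card W + (t + 1) = Fintype.card V ∧
      ∑ w, (N H w).card + t * (t + 1) = ∑ v, (N G v).card := by
  classical
  obtain ⟨c, hc1, hc2⟩ := hc
  set S : Set V := (c.supp)ᶜ with hS
  have hcl : ∀ v ∈ c.supp, ∀ w, G.Adj v w → w ∈ c.supp := by
    intro v hv w hw
    rw [SimpleGraph.ConnectedComponent.mem_supp_iff] at hv ⊢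
    rw [← hv]
    exact SimpleGraph.ConnectedComponent.sound hw.symm.reachable
  have hSc : ∀ v ∈ S, ∀ w, G.Adj v w → w ∈ S := by
    intro v hv w hw hw'
    exact hv (hcl w hw' v hw.symm)
  have h1 := inG_induce G S hSc h
  have hcard : Fintype.card S + (t + 1) = Fintype.card V := by
    have h2 := Set.ncard_add_ncard_compl c.supp
    rw [hc1, Nat.card_eq_fintype_card] at h2
    rw [← h2, ← Nat.card_eq_fintype_card (α := S), Nat.card_coe_set_eq]
    ring
  have hsum : ∑ w, (N (G.induce S) w).card + t * (t + 1) = ∑ v, (N G v).card := by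
    have h3 : ∑ w, (N (G.induce S) w).card = ∑ v ∈ S.toFinset, (N G v).card := by
      rw [sum_congr rfl fun w _ => card_N_induce G S hSc w]
      exact (Finset.sum_subtype S.toFinset (fun x => by simp) (fun v => (N G v).card)).symm
    have h4 : ∑ v ∈ c.supp.toFinset, (N G v).card = t * (t + 1) := by
      have h5 : ∀ v ∈ c.supp.toFinset, (N G v).card = t := by
        intro v hv
        rw [Set.mem_toFinset] at hv
        have h6 : N G v = c.supp.toFinset.erase v := by
          ext w
          simp only [mem_N, mem_erase, Set.mem_toFinset]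
          constructor
          · intro hw; exact ⟨hw.ne', hcl v hv w hw⟩
          · rintro ⟨hw1, hw2⟩; exact hc2 hv hw2 hw1.symm
        rw [h6, card_erase_of_mem (by simpa using hv), ← Set.ncard_eq_toFinset_card', hc1]
        simp
      rw [sum_congr rfl h5, sum_const, ← Set.ncard_eq_toFinset_card', hc1, smul_eq_mul]
      ring
    have h7 : S.toFinset = (c.supp.toFinset)ᶜ := by
      ext w; simp [hS]
    rw [h3, h7, ← h4]
    exact sum_compl_add_sum _ _
  obtain ⟨H, hH1, hH2⟩ := to_fin (G := G.induce S) (n := Fintype.card S) rfl h1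
  exact ⟨Fin (Fintype.card S), inferInstance, H, hH1, by rw [Fintype.card_fin]; exact hcard, by
    rw [hH2]; exact hsum⟩

end closed

end Pool.Agent.Helper39.Tri
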