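import Mathlib
import Pool.Agent.Helper39.Tri.Tri

/-!
# Disjoint copies of the complement of a cycle
-/

namespace Pool.Agent.Helper39.Tri

open Finset

/-- `A` disjoint copies of the complement of the cycle of length `m`. -/
def cc (A m : ℕ) : SimpleGraph (Fin A × ZMod m) where
  Adj p q := p.1 = q.1 ∧ p.2 ≠ q.2 ∧ p.2 ≠ q.2 + 1 ∧ q.2 ≠ p.2 + 1
  symm := ⟨by
    rintro ⟨i, a⟩ ⟨j, b⟩ ⟨h1, h2, h3, h4⟩
    exact ⟨h1.symm, h2.symm, h4, h3⟩⟩
  loopless := ⟨by
    rintro ⟨i, a⟩ ⟨_, h, _⟩
    exact h rfl⟩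

/-- The embedding of one copy. -/
def emb {A m : ℕ} (i : Fin A) : ZMod m ↪ Fin A × ZMod m :=
  ⟨fun b => (i, b), fun _ _ h => (Prod.mk.inj h).2⟩

@[simp] lemma emb_apply {A m : ℕ} (i : Fin A) (b : ZMod m) : emb i b = (i, b) := rfl

lemma cast_ne {m : ℕ} (hm : 5 ≤ m) {n : ℕ} (h0 : 0 < n) (hn : n ≤ 4) : ((n : ℕ) : ZMod m) ≠ 0 := by
  rw [Ne, ZMod.natCast_eq_zero_iff]
  intro h
  have := Nat.le_of_dvd h0 h
  omega

variable {A m : ℕ} [NeZero m]

/-- Complement description of the neighbourhood. -/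
lemma N_cc (p : Fin A × ZMod m) :
    N (cc A m) p = ({p.2, p.2 + 1, p.2 - 1} : Finset (ZMod m))ᶜ.map (emb p.1) := by
  ext ⟨j, b⟩
  simp only [mem_N, mem_map, mem_compl, mem_insert, mem_singleton, emb_apply,
    Prod.mk.injEq, not_or]
  constructor
  · rintro ⟨h1, h2, h3, h4⟩
    refine ⟨b, ⟨Ne.symm h2, h4, ?_⟩, h1, rfl⟩
    intro h
    exact h3 (by rw [h]; ring)
  · rintro ⟨b', ⟨h1, h2, h3⟩, h4, rfl⟩
    refine ⟨h4, Ne.symm h1, ?_, h2⟩
    intro h
    exact h3 (by rw [h]; ring)

lemma card_N_cc (hm : 5 ≤ m) (p : Fin A × ZMod m) : (N (cc A m) p).card + 3 = m := by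
  rw [N_cc, card_map]
  have h1 : ({p.2, p.2 + 1, p.2 - 1} : Finset (ZMod m)).card = 3 := by
    have e1 := cast_ne hm (n := 1) (by omega) (by omega)
    have e2 := cast_ne hm (n := 2) (by omega) (by omega)
    push_cast at e1 e2
    rw [card_eq_three]
    refine ⟨_, _, _, ?_, ?_, ?_, rfl⟩
    · intro h; apply e1; linear_combination -h
    · intro h; apply e1; linear_combination h
    · intro h; apply e2; linear_combination h
  have h2 := card_add_card_compl ({p.2, p.2 + 1, p.2 - 1} : Finset (ZMod m))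
  rw [ZMod.card] at h2
  omega

lemma inter_cc {p q : Fin A × ZMod m} (h : p.1 = q.1) :
    ((({p.2, p.2 + 1, p.2 - 1} : Finset (ZMod m)) ∪ {q.2, q.2 + 1, q.2 - 1})ᶜ.map
      (emb p.1)) ⊆ N (cc A m) q ∩ N (cc A m) p := by
  intro z hz
  rw [mem_inter, N_cc, N_cc]
  simp only [mem_map, mem_compl, mem_union, not_or] at hz ⊢
  obtain ⟨b, ⟨h1, h2⟩, rfl⟩ := hz
  refine ⟨⟨b, h2, ?_⟩, b, h1, rfl⟩
  simp [h]

lemma codeg_cc {p q : Fin A × ZMod m} (h : p.1 = q.1) {n : ℕ}
    (hn : (({p.2, p.2 + 1, p.2 - 1} : Finset (ZMod m)) ∪ {q.2, q.2 + 1, q.2 - 1}).card ≤ n) :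
    m ≤ (N (cc A m) q ∩ N (cc A m) p).card + n := by
  have h1 := card_le_card (inter_cc h)
  rw [card_map] at h1
  have h2 := card_add_card_compl
    (({p.2, p.2 + 1, p.2 - 1} : Finset (ZMod m)) ∪ {q.2, q.2 + 1, q.2 - 1})
  rw [ZMod.card] at h2
  omega

lemma E2_cc (hm' : 6 ≤ m) (p : Fin A × ZMod m) :
    (m - 3) * (m - 6) + 2 ≤ E2 (cc A m) (N (cc A m) p) := by
  classical
  have hm : 5 ≤ m := by omega
  obtain ⟨i, a⟩ := p
  have h3 : ∀ a b c : ZMod m, ({a, b, c} : Finset (ZMod m)).card ≤ 3 := fun a b c => card_le_three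
  have e1 := cast_ne hm (n := 1) (by omega) (by omega)
  have e2 := cast_ne hm (n := 2) (by omega) (by omega)
  have e3 := cast_ne hm (n := 3) (by omega) (by omega)
  have e4 := cast_ne hm (n := 4) (by omega) (by omega)
  push_cast at e1 e2 e3 e4
  have hp2 : (i, a + 2) ∈ N (cc A m) (i, a) := by
    rw [mem_N]
    refine ⟨rfl, ?_, ?_, ?_⟩
    · intro h; apply e2; simp only at h; linear_combination -h
    · intro h; apply e3; simp only at h; linear_combination -h
    · intro h; apply e1; simp only at h; linear_combination h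
  have hm2 : (i, a - 2) ∈ N (cc A m) (i, a) := by
    rw [mem_N]
    refine ⟨rfl, ?_, ?_, ?_⟩
    · intro h; apply e2; simp only at h; linear_combination h
    · intro h; apply e1; simp only at h; linear_combination h
    · intro h; apply e3; simp only at h; linear_combination -h
  have hne : (i, a + 2) ≠ (i, a - 2) := by
    intro h
    have := (Prod.mk.inj h).2
    apply e4; linear_combination this
  have hgen : ∀ u ∈ N (cc A m) (i, a),
      (m - 6) + ((if u = (i, a + 2) then 1 else 0) + (if u = (i, a - 2) then 1 else 0)) ≤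
        (N (cc A m) u ∩ N (cc A m) (i, a)).card := by
    rintro ⟨j, b⟩ hu
    rw [mem_N] at hu
    have hij : i = j := hu.1
    subst hij
    have h6 := codeg_cc (A := A) (m := m) (p := (i, a)) (q := (i, b)) rfl (n := 6)
      ((card_union_le _ _).trans (by
        have h7 := h3 a (a + 1) (a - 1)
        have h8 := h3 b (b + 1) (b - 1)
        simp only
        omega))
    have h5 : (i, b) = (i, a + 2) ∨ (i, b) = (i, a - 2) →
        m ≤ (N (cc A m) (i, b) ∩ N (cc A m) (i, a)).card + 5 := by
      rintro (h | h)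
      · have hb := (Prod.mk.inj h).2
        subst hb
        apply codeg_cc (A := A) (m := m) (p := (i, a)) (q := (i, a + 2)) rfl
        have : ({a, a + 1, a - 1} : Finset (ZMod m)) ∪ {a + 2, a + 2 + 1, a + 2 - 1} ⊆
            {a, a + 1, a - 1, a + 2, a + 2 + 1} := by
          intro z hz
          simp only [mem_union, mem_insert, mem_singleton] at hz ⊢
          rcases hz with (h | h | h) | (h | h | h)
          · tauto
          · tauto
          · tauto
          · tauto
          · tauto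
          · right; left; rw [h]; ring
        exact (card_le_card this).trans card_le_five
      · have hb := (Prod.mk.inj h).2
        subst hb
        apply codeg_cc (A := A) (m := m) (p := (i, a)) (q := (i, a - 2)) rfl
        have : ({a, a + 1, a - 1} : Finset (ZMod m)) ∪ {a - 2, a - 2 + 1, a - 2 - 1} ⊆
            {a, a + 1, a - 1, a - 2, a - 2 - 1} := by
          intro z hz
          simp only [mem_union, mem_insert, mem_singleton] at hz ⊢
          rcases hz with (h | h | h) | (h | h | h)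
          · tauto
          · tauto
          · tauto
          · tauto
          · right; right; left; rw [h]; ring
          · tauto
        exact (card_le_card this).trans card_le_five
    by_cases c1 : (i, b) = (i, a + 2)
    · have c2 : (i, b) ≠ (i, a - 2) := by rw [c1]; exact hne
      rw [if_pos c1, if_neg c2]
      have := h5 (Or.inl c1)
      omega
    · by_cases c2 : (i, b) = (i, a - 2)
      · rw [if_neg c1, if_pos c2]
        have := h5 (Or.inr c2)
        omega
      · rw [if_neg c1, if_neg c2]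
        omega
  have hsum := sum_le_sum hgen
  rw [sum_add_distrib, sum_const, smul_eq_mul, sum_add_distrib, sum_ite_eq' , sum_ite_eq',
    if_pos hp2, if_pos hm2] at hsum
  have hc := card_N_cc hm (i, a)
  have hc2 : (N (cc A m) (i, a)).card = m - 3 := by omega
  rw [hc2] at hsum
  unfold E2 cr
  refine hsum.trans (le_of_eq ?_)
  refine sum_congr rfl fun u _ => ?_
  congr
  exact Subsingleton.elim _ _

/-- The construction. -/
lemma cc_inG {t : ℕ} (ht : 2 ≤ t) (A : ℕ) : InG t (cc A (t + 4)) := by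
  rw [inG_iff]
  intro p
  have h := E2_cc (A := A) (m := t + 4) (by omega) p
  obtain ⟨s, rfl⟩ : ∃ s, t = s + 2 := ⟨t - 2, by omega⟩
  have e1 : s + 2 + 4 - 3 = s + 3 := by omega
  have e2 : s + 2 + 4 - 6 = s := by omega
  rw [e1, e2] at h
  nlinarith

lemma cc_sum {t : ℕ} (ht : 2 ≤ t) (A : ℕ) :
    ∑ p, (N (cc A (t + 4)) p).card = A * (t + 4) * (t + 1) := by
  have h : ∀ p ∈ (univ : Finset (Fin A × ZMod (t + 4))), (N (cc A (t + 4)) p).card = t + 1 := by
    intro p _
    have := card_N_cc (A := A) (m := t + 4) (by omega) p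
    omega
  rw [sum_congr rfl h, sum_const, card_univ, Fintype.card_prod, Fintype.card_fin, ZMod.card,
    smul_eq_mul]

end Pool.Agent.Helper39.Tri
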