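import Mathlib
import Pool.Agent.Helper39.Tri.Main
import Pool.Agent.Helper39.Tri.Upper

/-!
# Extremal graphs without isolated cliques
-/

namespace Pool.Agent.Helper39.Tri

open Finset

lemma exists_extremal {n t : ℕ} (H : SimpleGraph (Fin n)) (hH : InG t H) :
    ∃ G : SimpleGraph (Fin n), Extremal n t G ∧ G.edgeSet.ncard ≤ H.edgeSet.ncard := by
  classical
  have hex : ∃ m, ∃ G : SimpleGraph (Fin n), InG t G ∧ G.edgeSet.ncard = m := ⟨_, H, hH, rfl⟩
  obtain ⟨G, hG, hGm⟩ := Nat.find_spec hex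
  refine ⟨G, ⟨hG, fun H' hH' => ?_⟩, ?_⟩
  · rw [hGm]; exact Nat.find_min' hex ⟨H', hH', rfl⟩
  · rw [hGm]; exact Nat.find_min' hex ⟨H, hH, rfl⟩

/-- One descent step. -/
lemma step {t n B : ℕ}
    (hall : ∀ G : SimpleGraph (Fin n), Extremal n t G → HasIsolatedClique t G)
    (h : ∃ (W : Type) (_ : Fintype W) (H : SimpleGraph W), InG t H ∧
      Fintype.card W = n ∧ ∑ w, (N H w).card ≤ B) :
    ∃ (W : Type) (_ : Fintype W) (H : SimpleGraph W), InG t H ∧
      Fintype.card W + (t + 1) = n ∧ ∑ w, (N H w).card + t * (t + 1) ≤ B := by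
  obtain ⟨W, _, H, h1, h2, h3⟩ := h
  obtain ⟨H', h4, h5⟩ := to_fin h2 h1
  obtain ⟨G, h6, h7⟩ := exists_extremal H' h4
  obtain ⟨W', inst, H'', h8, h9, h10⟩ := strip G h6.1 (hall G h6)
  refine ⟨W', inst, H'', h8, by rw [h9, Fintype.card_fin], ?_⟩
  rw [h10]
  have e1 := sum_N G
  have e2 := sum_N H'
  omega

theorem main {k t : ℕ} (hk : 1 ≤ k)
    (ht : 16 * (3 * k + 1 + 1) ^ 2 * (24 * k * (3 * k + 1) * (3 * k + 1 + 1)) ≤ t) :
    ∃ n : ℕ, k * (t + 1) ≤ n ∧ ∃ G : SimpleGraph (Fin n), Extremal n t G ∧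
      ¬ HasIsolatedClique t G := by
  by_contra hcon
  push Not at hcon
  obtain ⟨A, hA⟩ : ∃ A, A = 3 * k + 1 := ⟨_, rfl⟩
  rw [← hA] at ht
  have ht2 : 2 ≤ t := by
    refine le_trans ?_ ht
    have : 0 < (A + 1) ^ 2 * (24 * k * A * (A + 1)) := by
      have : 0 < A := by omega
      positivity
    calc 2 ≤ 16 * 1 := by norm_num
      _ ≤ 16 * ((A + 1) ^ 2 * (24 * k * A * (A + 1))) := Nat.mul_le_mul_left _ this
      _ = _ := by ring
  have hP : ∀ i ≤ A - k, ∃ (W : Type) (_ : Fintype W) (H : SimpleGraph W), InG t H ∧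
      Fintype.card W = (A - i) * (t + 1) + 3 * A ∧
      ∑ w, (N H w).card + i * (t * (t + 1)) ≤ A * (t + 4) * (t + 1) := by
    intro i
    induction i with
    | zero =>
      intro _
      refine ⟨Fin A × ZMod (t + 4), inferInstance, cc A (t + 4), cc_inG ht2 A, ?_, ?_⟩
      · rw [Fintype.card_prod, Fintype.card_fin, ZMod.card, Nat.sub_zero]; ring
      · rw [cc_sum ht2]; simp
    | succ i ih =>
      intro hi
      obtain ⟨W, inst, H, h1, h2, h3⟩ := ih (by omega)
      obtain ⟨W', inst', H', h4, h5, h6⟩ := step (n := (A - i) * (t + 1) + 3 * A)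
        (B := A * (t + 4) * (t + 1) - i * (t * (t + 1)))
        (fun G hG => hcon _ (by
          have : k ≤ A - i := by omega
          have := Nat.mul_le_mul_right (t + 1) this
          omega) G hG)
        ⟨W, inst, H, h1, h2, by omega⟩
      refine ⟨W', inst', H', h4, ?_, ?_⟩
      · obtain ⟨j, hj⟩ : ∃ j, A - i = j + 1 := ⟨A - i - 1, by omega⟩
        have hj' : A - (i + 1) = j := by omega
        rw [hj']
        rw [hj] at h5
        have : (j + 1) * (t + 1) = j * (t + 1) + (t + 1) := by ring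
        omega
      · have : (i + 1) * (t * (t + 1)) = i * (t * (t + 1)) + t * (t + 1) := by ring
        omega
  obtain ⟨W, inst, H, h1, h2, h3⟩ := hP (A - k) le_rfl
  rw [inG_iff] at h1
  have hdeg : ∀ v, (N H v).card = t + ((N H v).card - t) := by
    intro v
    have := le_deg H ht2 h1 v
    omega
  have hcard : Fintype.card W = k * (t + 1) + 3 * A := by
    rw [h2]
    congr 2
    omega
  have hlow := lower (x := fun v => (N H v).card - t) hk hA rfl ht hcard hdeg h1
  have hs : ∑ w, (N H w).card = Fintype.card W * t + ∑ v, ((N H v).card - t) := by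
    rw [sum_congr rfl fun v _ => hdeg v, sum_add_distrib, sum_const, card_univ, smul_eq_mul]
  rw [hs, hcard] at h3
  obtain ⟨b, hb⟩ : ∃ b, A = k + b := ⟨A - k, by omega⟩
  have hb' : A - k = b := by omega
  rw [hb'] at h3
  have e1 : A * (t + 4) * (t + 1) = (k * (t + 1) + 3 * A) * t + A * (t + 4) + b * (t * (t + 1)) := by
    rw [hb]; ring
  omega

end Pool.Agent.Helper39.Tri
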